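import Pool.Agent.H21.T3.Stm

set_option autoImplicit false

namespace Pool.Agent.H43.T3

open scoped ENNReal
open Classical
open Pool.Agent.H21.SD (c outs Bx c_symm mem_of_c)
open Pool.Agent.H21.T3

theorem c_cons (p q : V) (l : List V) (v w : V) : c (p :: q :: l) v w = c [p, q] v w + c (q :: l) v w := by
  simp [c]

theorem step (S : Finset V) (hS : Ok S) (p q v : V) (h : Ad S p q) :
    ∑ s ∈ S, (c [p, q] v (v + s) + c [p, q] v (v - s)) =
      (if p = v then 1 else 0) + (if q = v then 1 else 0) := by
  obtain ⟨x, y⟩ := p
  obtain ⟨z, w⟩ := q
  obtain ⟨a, b⟩ := v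
  rcases hS with rfl | rfl
  · unfold S2
    unfold Ad S2 at h
    simp only [Finset.mem_insert, Finset.mem_singleton, Prod.mk_sub_mk, Prod.mk.injEq] at h
    rw [Finset.sum_insert (by decide), Finset.sum_singleton]
    simp only [c, Prod.mk_sub_mk, Prod.mk_add_mk, Prod.mk.injEq]
    by_cases h1 : x = a ∧ y = b
    · obtain ⟨rfl, rfl⟩ := h1
      rcases h with (⟨h2, h3⟩ | ⟨h2, h3⟩) | (⟨h2, h3⟩ | ⟨h2, h3⟩)
      · obtain rfl : z = x + 1 := by omega
        obtain rfl : w = y := by omega
        simp
        omega
      · obtain rfl : z = x := by omega
        obtain rfl : w = y + 1 := by omega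
        simp
        omega
      · obtain rfl : z = x - 1 := by omega
        obtain rfl : w = y := by omega
        simp
        omega
      · obtain rfl : z = x := by omega
        obtain rfl : w = y - 1 := by omega
        simp
        omega
    · by_cases h4 : z = a ∧ w = b
      · obtain ⟨rfl, rfl⟩ := h4
        rcases h with (⟨h2, h3⟩ | ⟨h2, h3⟩) | (⟨h2, h3⟩ | ⟨h2, h3⟩)
        · obtain rfl : x = z - 1 := by omega
          obtain rfl : y = w := by omega
          simp
          omega
        · obtain rfl : x = z := by omega
          obtain rfl : y = w - 1 := by omega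
          simp
          omega
        · obtain rfl : x = z + 1 := by omega
          obtain rfl : y = w := by omega
          simp
          omega
        · obtain rfl : x = z := by omega
          obtain rfl : y = w + 1 := by omega
          simp
          omega
      · simp [h1, h4]
  · unfold S3
    unfold Ad S3 at h
    simp only [Finset.mem_insert, Finset.mem_singleton, Prod.mk_sub_mk, Prod.mk.injEq] at h
    rw [Finset.sum_insert (by decide), Finset.sum_insert (by decide), Finset.sum_singleton]
    simp only [c, Prod.mk_sub_mk, Prod.mk_add_mk, Prod.mk.injEq]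
    by_cases h1 : x = a ∧ y = b
    · obtain ⟨rfl, rfl⟩ := h1
      rcases h with (⟨h2, h3⟩ | ⟨h2, h3⟩ | ⟨h2, h3⟩) | (⟨h2, h3⟩ | ⟨h2, h3⟩ | ⟨h2, h3⟩)
      · obtain rfl : z = x + 1 := by omega
        obtain rfl : w = y := by omega
        simp
        try (first | omega | (split_ifs <;> omega))
      · obtain rfl : z = x := by omega
        obtain rfl : w = y + 1 := by omega
        simp
        try (first | omega | (split_ifs <;> omega))
      · obtain rfl : z = x - 1 := by omega
        obtain rfl : w = y + 1 := by omega
        simp
        try (first | omega | (split_ifs <;> omega))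
      · obtain rfl : z = x - 1 := by omega
        obtain rfl : w = y := by omega
        simp
        try (first | omega | (split_ifs <;> omega))
      · obtain rfl : z = x := by omega
        obtain rfl : w = y - 1 := by omega
        simp
        try (first | omega | (split_ifs <;> omega))
      · obtain rfl : z = x + 1 := by omega
        obtain rfl : w = y - 1 := by omega
        simp
        try (first | omega | (split_ifs <;> omega))
    · by_cases h4 : z = a ∧ w = b
      · obtain ⟨rfl, rfl⟩ := h4
        rcases h with (⟨h2, h3⟩ | ⟨h2, h3⟩ | ⟨h2, h3⟩) | (⟨h2, h3⟩ | ⟨h2, h3⟩ | ⟨h2, h3⟩)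
        · obtain rfl : x = z - 1 := by omega
          obtain rfl : y = w := by omega
          simp
          try (first | omega | (split_ifs <;> omega))
        · obtain rfl : x = z := by omega
          obtain rfl : y = w - 1 := by omega
          simp
          try (first | omega | (split_ifs <;> omega))
        · obtain rfl : x = z + 1 := by omega
          obtain rfl : y = w - 1 := by omega
          simp
          try (first | omega | (split_ifs <;> omega))
        · obtain rfl : x = z + 1 := by omega
          obtain rfl : y = w := by omega
          simp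
          try (first | omega | (split_ifs <;> omega))
        · obtain rfl : x = z := by omega
          obtain rfl : y = w + 1 := by omega
          simp
          try (first | omega | (split_ifs <;> omega))
        · obtain rfl : x = z - 1 := by omega
          obtain rfl : y = w + 1 := by omega
          simp
          try (first | omega | (split_ifs <;> omega))
      · simp [h1, h4]

theorem deg (S : Finset V) (hS : Ok S) : ∀ (l : List V) (a b : V), Wk S a b l → ∀ v : V,
    ∑ s ∈ S, (c l v (v + s) + c l v (v - s)) + (if a = v then 1 else 0) + (if b = v then 1 else 0) =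
      if v ∈ l then 2 else 0
  | [], a, b, h => by
    have := h.1
    simp at this
  | [p], a, b, h => by
    intro v
    have h1 : p = a := by simpa using h.1
    have h2 : p = b := by simpa using h.2.1
    subst h1
    subst h2
    simp only [c, add_zero, Finset.sum_const_zero, zero_add, List.mem_singleton]
    by_cases hv : p = v
    · subst hv; simp
    · rw [if_neg hv, if_neg (fun h => hv h.symm)]
  | p :: q :: l, a, b, h => by
    intro v
    have h1 : p = a := by simpa using h.1
    subst h1
    obtain ⟨-, hl, hn, hc⟩ := h
    rw [List.isChain_cons_cons] at hc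
    rw [List.nodup_cons] at hn
    have hl' : (q :: l).getLast? = some b := by
      rw [← hl, List.getLast?_cons_cons]
    have ih := deg S hS (q :: l) q b ⟨rfl, hl', hn.2, hc.2⟩ v
    have e : ∑ s ∈ S, (c (p :: q :: l) v (v + s) + c (p :: q :: l) v (v - s)) =
        ∑ s ∈ S, (c [p, q] v (v + s) + c [p, q] v (v - s)) +
          ∑ s ∈ S, (c (q :: l) v (v + s) + c (q :: l) v (v - s)) := by
      rw [← Finset.sum_add_distrib]
      apply Finset.sum_congr rfl
      intro s _
      rw [c_cons p q l v (v + s), c_cons p q l v (v - s)]
      ring
    rw [e, step S hS p q v hc.1]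
    by_cases hv : p = v
    · have hv' : v ∉ q :: l := by rw [← hv]; exact hn.1
      rw [if_neg hv'] at ih
      have hv2 : v ∈ p :: q :: l := by rw [hv]; simp
      rw [if_pos hv2, if_pos hv]
      omega
    · have hv2 : v ∈ p :: q :: l ↔ v ∈ q :: l := by
        rw [List.mem_cons]
        exact ⟨fun h => h.resolve_left (fun h => hv h.symm), Or.inr⟩
      rw [if_neg hv]
      by_cases hv3 : v ∈ q :: l
      · rw [if_pos hv3] at ih
        rw [if_pos (hv2.2 hv3)]
        omega
      · rw [if_neg hv3] at ih
        rw [if_neg (fun h => hv3 (hv2.1 h))]
        omega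

theorem t_DEG : S_DEG := fun S hS a b l h v => deg S hS l a b h v

end Pool.Agent.H43.T3
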